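import Pool.Agent.helper58.FI4E.Spec

/-!
# Row IHE: the induction hypothesis
-/

set_option autoImplicit false

namespace Pool.Agent.FI4E

open Pool.Agent.helper58.DC Pool.Agent.DI Pool.Agent.GR Pool.Agent.OB Pool.Agent.DR Pool.Agent.FI Pool.Agent.FI3 Pool.Agent.FI4 Pool.Agent.FI4I

theorem IHE_inf {G : Type} [Group G] (N K : Subgroup G) : K.subgroupOf N = (N ⊓ K).subgroupOf N := by
  ext y
  simp only [Subgroup.mem_subgroupOf, Subgroup.mem_inf]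
  exact ⟨fun h => ⟨y.2, h⟩, fun h => h.2⟩

theorem IHE (hTRE : TRE_stmt) (hTRA : TRA_stmt) (hRTN : RTN_stmt) (hHYN : HYN_stmt) (hCJR : CJR_stmt)
    (hBKV : BKV_stmt) (hTR3 : TR3_stmt) (hFSI : FSI_stmt) : IHE_stmt := by
  intro p M hS G _ _ D x θ χ rt hyp Q N mid IH φ hφ g hQ θ₁ hθ₁ hSB β hβN hβD hst
  obtain ⟨hDN, hczN, _, _⟩ := hBKV p M hS G D x θ χ rt Q N mid g hQ
  have hφI : φ ∈ IrrOn N := hφ.1
  have ind : Induces M θ₁ χ :=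
    ((hFSI p M hS G N N θ₁ φ).2 (fun y hy => hθ₁.1 y (fun h => hy (hczN h))) (fun y hy => hφI.1 y hy) hSB χ).2 hφ.2
  obtain ⟨rt₁, _, hyp₁⟩ := hCJR p M hS G D x θ χ rt g θ₁ hθ₁ ind
  obtain ⟨x'', rt₂⟩ := hRTN p M hS G (cjS g D) (g * x * g⁻¹) θ₁ χ rt₁ N hczN φ hφI hSB
  have hyp₂ := hHYN p M hS G (cjS g D) N hDN hczN θ₁ hθ₁ (hyp₁ hyp)
  obtain ⟨β', hβ'⟩ := (hTRA G N β).1 hβN
  obtain ⟨_, _, _, ts⟩ := (hTRA G N β).2 β' hβ'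
  have a1 : am β' ((cjS g D).subgroupOf N) = (cjS g D).subgroupOf N := by rw [ts _ hDN, hβD]
  obtain ⟨t1, t2, t3⟩ := hTRE p M hS G N φ hφI β β' hβ'
  have e := IH _ _ _ _ rt₂ hyp₂ β' a1 (t3.2 hst)
  rw [t2, ((hTR3 p G N).1 (cjS g D) hDN).2, IHE_inf, t1 _ inf_le_left] at e
  exact e

end Pool.Agent.FI4E
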